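import Pool.Agent.Q264.KS.Stm4

/-!
# Project KS (helper264), job KS4-GA
-/

set_option autoImplicit false

namespace Pool.Agent.Q208.KS.GA

open Module Filter Topology Pool.Agent.Q264.KS

universe u

/-- the matrix of the functionals -/
noncomputable def Mt {X : Type u} [NormedAddCommGroup X] [NormedSpace ℝ X] {n : ℕ}
    (b : Basis (Fin n) ℝ X) (h : Fin n → X →L[ℝ] ℝ) : Matrix (Fin n) (Fin n) ℝ :=
  Matrix.of fun i j => h i (b j)

/-- the dual vectors -/
noncomputable def ev {X : Type u} [NormedAddCommGroup X] [NormedSpace ℝ X] {n : ℕ}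
    (b : Basis (Fin n) ℝ X) (h : Fin n → X →L[ℝ] ℝ) (i : Fin n) : X :=
  (Mt b h).det⁻¹ • ∑ j, (Mt b h).adjugate j i • b j

section

variable {X : Type u} [NormedAddCommGroup X] [NormedSpace ℝ X] {n : ℕ}
    (b : Basis (Fin n) ℝ X) (h : Fin n → X →L[ℝ] ℝ)

theorem ev_apply (i : Fin n) (g : X →L[ℝ] ℝ) :
    g (ev b h i) = (Mt b h).det⁻¹ * ∑ j, (Mt b h).adjugate j i * g (b j) := by
  unfold ev
  rw [map_smul, map_sum, smul_eq_mul]
  simp only [map_smul, smul_eq_mul]

theorem ev_dual (hd : (Mt b h).det ≠ 0) (i k : Fin n) : h k (ev b h i) = if k = i then 1 else 0 := by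
  rw [ev_apply]
  have e : ∑ j, (Mt b h).adjugate j i * h k (b j) = ((Mt b h) * (Mt b h).adjugate) k i := by
    rw [Matrix.mul_apply]
    refine Finset.sum_congr rfl fun j _ => ?_
    rw [mul_comm]
    rfl
  rw [e, Matrix.mul_adjugate, Matrix.smul_apply, Matrix.one_apply, smul_eq_mul]
  split_ifs
  · rw [mul_one, inv_mul_cancel₀ hd]
  · rw [mul_zero, mul_zero]

theorem det_upd (hd : (Mt b h).det ≠ 0) (i : Fin n) (g : X →L[ℝ] ℝ) :
    (Mt b (Function.update h i g)).det = (Mt b h).det * g (ev b h i) := by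
  have e : Mt b (Function.update h i g) = (Mt b h).updateRow i (fun j => g (b j)) := by
    ext k j
    by_cases hk : k = i
    · subst hk
      rw [Matrix.updateRow_self]
      unfold Mt
      rw [Matrix.of_apply, Function.update_self]
    · rw [Matrix.updateRow_ne hk]
      unfold Mt
      rw [Matrix.of_apply, Matrix.of_apply, Function.update_of_ne hk]
  rw [e, ← Matrix.cramer_transpose_apply, Matrix.cramer_eq_adjugate_mulVec, ← Matrix.adjugate_transpose,
    ev_apply, mul_inv_cancel_left₀ hd]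
  rfl

/-- the function to maximise -/
noncomputable def G (p : X) (a : ℝ) (h : Fin n → X →L[ℝ] ℝ) : ℝ :=
  |(Mt b h).det| * ∏ i, |h i p| ^ a

theorem G_cont (p : X) {a : ℝ} (ha : 0 < a) : Continuous (G b p a) := by
  unfold G
  refine Continuous.mul ?_ ?_
  · refine continuous_abs.comp (Continuous.matrix_det ?_)
    unfold Mt
    refine continuous_matrix fun i j => ?_
    exact (ContinuousLinearMap.apply ℝ ℝ (b j)).continuous.comp (continuous_apply i)
  · refine continuous_finsetProd _ fun i _ => ?_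
    refine Continuous.rpow_const ?_ fun _ => Or.inr ha.le
    exact continuous_abs.comp ((ContinuousLinearMap.apply ℝ ℝ p).continuous.comp (continuous_apply i))

theorem exists_pos [FiniteDimensional ℝ X] (p : X) (hp : p ≠ 0) (a : ℝ) :
    ∃ h : Fin n → X →L[ℝ] ℝ, (∀ i, ‖h i‖ ≤ 1) ∧ 0 < G b p a h := by
  have h0 : ∃ j, b.coord j p ≠ 0 := by
    by_contra hc
    push Not at hc
    exact hp ((b.forall_coord_eq_zero_iff).1 hc)
  obtain ⟨j0, hj0⟩ := h0
  let t : Fin n → ℝ := fun i => if b.coord i p = 0 then 1 else 0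
  have ht0 : t j0 = 0 := if_neg hj0
  let c : Fin n → X →L[ℝ] ℝ := fun i => LinearMap.toContinuousLinearMap (b.coord i)
  let f : Fin n → X →L[ℝ] ℝ := fun i => c i + t i • c j0
  have hc : ∀ i x, c i x = b.coord i x := fun i x => rfl
  have hf : ∀ i x, f i x = b.coord i x + t i * b.coord j0 x := fun i x => rfl
  have hfp : ∀ i, f i p ≠ 0 := by
    intro i
    rw [hf]
    by_cases hi : b.coord i p = 0
    · have : t i = 1 := if_pos hi
      rw [hi, this]
      simpa using hj0
    · have : t i = 0 := if_neg hi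
      rw [this]
      simpa using hi
  have hdet : (Mt b f).det = 1 := by
    have e : Mt b f = 1 + Matrix.replicateCol Unit t * Matrix.replicateRow Unit (fun j => if j = j0 then (1 : ℝ) else 0) := by
      ext i j
      have e1 : (Mt b f) i j = b.coord i (b j) + t i * b.coord j0 (b j) := rfl
      rw [e1, Matrix.add_apply, Matrix.one_apply, Matrix.mul_apply]
      simp only [Module.Basis.coord_apply, Module.Basis.repr_self, Finsupp.single_apply, Finset.univ_unique,
        Finset.sum_singleton, Matrix.replicateCol_apply, Matrix.replicateRow_apply]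
      congr 1
      by_cases hij : i = j
      · rw [if_pos hij, if_pos hij.symm]
      · rw [if_neg hij, if_neg fun h => hij h.symm]
    rw [e, Matrix.det_one_add_replicateCol_mul_replicateRow]
    simp [dotProduct, ht0]
  let C : ℝ := 1 + ∑ i, ‖f i‖
  have hC : 0 < C := by
    have : 0 ≤ ∑ i, ‖f i‖ := Finset.sum_nonneg fun i _ => norm_nonneg _
    show 0 < 1 + ∑ i, ‖f i‖
    linarith
  refine ⟨fun i => C⁻¹ • f i, fun i => ?_, ?_⟩
  · rw [norm_smul, Real.norm_of_nonneg (inv_nonneg.2 hC.le), inv_mul_le_iff₀ hC, mul_one]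
    have : ‖f i‖ ≤ ∑ i, ‖f i‖ := Finset.single_le_sum (f := fun i => ‖f i‖) (fun i _ => norm_nonneg _)
      (Finset.mem_univ i)
    show ‖f i‖ ≤ 1 + ∑ i, ‖f i‖
    linarith
  · unfold G
    refine mul_pos (abs_pos.2 ?_) (Finset.prod_pos fun i _ => ?_)
    · have e : Mt b (fun i => C⁻¹ • f i) = C⁻¹ • Mt b f := by
        ext i j
        rfl
      rw [e, Matrix.det_smul, hdet, mul_one]
      exact pow_ne_zero _ (inv_ne_zero hC.ne')
    · refine Real.rpow_pos_of_pos (abs_pos.2 ?_) _
      show C⁻¹ * f i p ≠ 0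
      exact mul_ne_zero (inv_ne_zero hC.ne') (hfp i)

theorem deriv_ineq {a α β : ℝ} (ha : 0 < a)
    (H : ∀ t : ℝ, 0 < t → t ≤ 1 → |1 + t * α| * |1 + t * β| ^ a ≤ 1) : α + a * β ≤ 0 := by
  by_contra hc
  push Not at hc
  have c1 : Tendsto (fun t : ℝ => 1 + t * α) (𝓝 0) (𝓝 1) := by
    have : Continuous fun t : ℝ => 1 + t * α := by fun_prop
    simpa using this.tendsto 0
  have c2 : Tendsto (fun t : ℝ => 1 + t * β) (𝓝 0) (𝓝 1) := by
    have : Continuous fun t : ℝ => 1 + t * β := by fun_prop
    simpa using this.tendsto 0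
  have c3 : Tendsto (fun t : ℝ => α / (1 + t * α) + a * (β / (1 + t * β))) (𝓝 0) (𝓝 (α + a * β)) := by
    have := (tendsto_const_nhds (x := α)).div c1 one_ne_zero
    have h2 := ((tendsto_const_nhds (x := β)).div c2 one_ne_zero).const_mul a
    simpa using this.add h2
  have e1 := c1.eventually (lt_mem_nhds one_pos)
  have e2 := c2.eventually (lt_mem_nhds one_pos)
  have e3 := c3.eventually (lt_mem_nhds hc)
  have e4 : ∀ᶠ t : ℝ in 𝓝 0, t < 1 := gt_mem_nhds one_pos
  have e5 : ∀ᶠ t : ℝ in 𝓝[>] 0, 0 < t := self_mem_nhdsWithin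
  have e6 := (((e1.and e2).and (e3.and e4)).filter_mono nhdsWithin_le_nhds).and e5
  obtain ⟨t, ⟨⟨⟨p1, p2⟩, p3, p4⟩, p5⟩⟩ := (e6 : ∀ᶠ t : ℝ in 𝓝[>] 0, _).exists
  have h1 := H t p5 p4.le
  rw [abs_of_pos p1, abs_of_pos p2] at h1
  have q : 0 < (1 + t * β) ^ a := Real.rpow_pos_of_pos p2 a
  have h2 := Real.log_nonpos (mul_pos p1 q).le h1
  rw [Real.log_mul p1.ne' q.ne', Real.log_rpow p2] at h2
  have h3 := Real.one_sub_inv_le_log_of_pos p1
  have h4 := mul_le_mul_of_nonneg_left (Real.one_sub_inv_le_log_of_pos p2) ha.le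
  have h5 : 1 - (1 + t * α)⁻¹ = t * (α / (1 + t * α)) := by
    field_simp
    ring
  have h6 : 1 - (1 + t * β)⁻¹ = t * (β / (1 + t * β)) := by
    field_simp
    ring
  rw [h5] at h3
  rw [h6] at h4
  have h7 : t * (α / (1 + t * α) + a * (β / (1 + t * β))) ≤ 0 := by
    have : t * (α / (1 + t * α) + a * (β / (1 + t * β))) = t * (α / (1 + t * α)) + a * (t * (β / (1 + t * β))) := by
      ring
    rw [this]
    linarith
  have h8 := mul_pos p5 p3
  linarith

end

theorem t_GA : S_GA.{u} := by
  intro X _ _ _ n hn _ p κ hp hκ0 hκ1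
  let b : Basis (Fin n) ℝ X := finBasisOfFinrankEq ℝ X hn
  have h1κ : 0 < 1 - κ := by linarith
  set a : ℝ := κ / (1 - κ) with haD
  have ha : 0 < a := div_pos hκ0 h1κ
  have h1a : 0 < 1 + a := by linarith
  have haκ : a / (1 + a) = κ := by
    rw [haD]
    field_simp
    ring
  have : ProperSpace (X →L[ℝ] ℝ) := FiniteDimensional.proper_real _
  have hK : IsCompact {h : Fin n → X →L[ℝ] ℝ | ∀ i, ‖h i‖ ≤ 1} := by
    have h1 := isCompact_univ_pi (fun _ : Fin n => isCompact_closedBall (0 : X →L[ℝ] ℝ) 1)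
    have h2 : {h : Fin n → X →L[ℝ] ℝ | ∀ i, ‖h i‖ ≤ 1} =
        Set.univ.pi (fun _ : Fin n => Metric.closedBall (0 : X →L[ℝ] ℝ) 1) := by
      ext h
      simp [Set.mem_pi]
    rw [h2]
    exact h1
  obtain ⟨h0, hh0, hG0⟩ := exists_pos b p hp a
  obtain ⟨h, hh, hmax⟩ := hK.exists_isMaxOn ⟨h0, hh0⟩ (G_cont b p ha).continuousOn
  have hG : 0 < G b p a h := lt_of_lt_of_le hG0 (hmax hh0)
  have hdet : (Mt b h).det ≠ 0 := by
    intro h0
    unfold G at hG
    rw [h0, abs_zero, zero_mul] at hG
    exact lt_irrefl _ hG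
  have hne : ∀ i, h i p ≠ 0 := by
    intro i hi
    unfold G at hG
    rw [Finset.prod_eq_zero (Finset.mem_univ i) (by rw [hi, abs_zero, Real.zero_rpow ha.ne']), mul_zero] at hG
    exact lt_irrefl _ hG
  have key : ∀ i (g : X →L[ℝ] ℝ), ‖g‖ ≤ 1 → g (ev b h i + (a / h i p) • p) ≤ 1 + a := by
    intro i g hg
    have hd := deriv_ineq (a := a) (α := g (ev b h i) - 1) (β := g p / h i p - 1) ha ?_
    · rw [map_add, map_smul, smul_eq_mul]
      have : a / h i p * g p = a * (g p / h i p) := by ring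
      rw [this]
      linarith
    · intro t ht0 ht1
      have hm : Function.update h i ((1 - t) • h i + t • g) ∈
          {h : Fin n → X →L[ℝ] ℝ | ∀ i, ‖h i‖ ≤ 1} := by
        intro k
        by_cases hk : k = i
        · subst hk
          rw [Function.update_self]
          refine (norm_add_le _ _).trans ?_
          rw [norm_smul, norm_smul, Real.norm_of_nonneg ht0.le, Real.norm_of_nonneg (by linarith)]
          have q1 := mul_le_mul_of_nonneg_left (hh k) (by linarith : (0 : ℝ) ≤ 1 - t)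
          have q2 := mul_le_mul_of_nonneg_left hg ht0.le
          linarith
        · rw [Function.update_of_ne hk]
          exact hh k
      have hle : G b p a (Function.update h i ((1 - t) • h i + t • g)) ≤ G b p a h := hmax hm
      unfold G at hle
      rw [det_upd b h hdet] at hle
      rw [← Finset.mul_prod_erase Finset.univ (fun k => |h k p| ^ a) (Finset.mem_univ i),
        ← Finset.mul_prod_erase Finset.univ (fun k => |(Function.update h i ((1 - t) • h i + t • g)) k p| ^ a)
          (Finset.mem_univ i), Function.update_self] at hle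
      have hR : ∏ k ∈ Finset.univ.erase i, |(Function.update h i ((1 - t) • h i + t • g)) k p| ^ a =
          ∏ k ∈ Finset.univ.erase i, |h k p| ^ a := by
        refine Finset.prod_congr rfl fun k hk => ?_
        rw [Function.update_of_ne (Finset.ne_of_mem_erase hk)]
      rw [hR] at hle
      have hRpos : 0 < ∏ k ∈ Finset.univ.erase i, |h k p| ^ a :=
        Finset.prod_pos fun k _ => Real.rpow_pos_of_pos (abs_pos.2 (hne k)) _
      have v1 : ((1 - t) • h i + t • g) (ev b h i) = 1 + t * (g (ev b h i) - 1) := by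
        show (1 - t) * h i (ev b h i) + t * g (ev b h i) = _
        rw [ev_dual b h hdet, if_pos rfl]
        ring
      have v2 : ((1 - t) • h i + t • g) p = h i p * (1 + t * (g p / h i p - 1)) := by
        show (1 - t) * h i p + t * g p = _
        have := hne i
        field_simp
        ring
      rw [v1, v2, abs_mul, abs_mul, Real.mul_rpow (abs_nonneg _) (abs_nonneg _)] at hle
      have hη : 0 < |h i p| ^ a := Real.rpow_pos_of_pos (abs_pos.2 (hne i)) _
      have hc : 0 < |(Mt b h).det| * (|h i p| ^ a * ∏ k ∈ Finset.univ.erase i, |h k p| ^ a) :=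
        mul_pos (abs_pos.2 hdet) (mul_pos hη hRpos)
      refine le_of_mul_le_mul_left ?_ hc
      rw [mul_one]
      refine le_trans (le_of_eq ?_) hle
      ring
  have hwi : ∀ i, h i (ev b h i + (a / h i p) • p) = 1 + a := by
    intro i
    rw [map_add, map_smul, smul_eq_mul, ev_dual b h hdet, if_pos rfl, div_mul_cancel₀ _ (hne i)]
  have hnw : ∀ i, ‖ev b h i + (a / h i p) • p‖ = 1 + a := by
    intro i
    apply le_antisymm
    · obtain ⟨g, hg1, hg2⟩ := exists_dual_vector'' ℝ (ev b h i + (a / h i p) • p)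
      have := key i g hg1
      rw [hg2] at this
      simpa using this
    · rw [← hwi i]
      refine (le_abs_self _).trans (((h i).le_opNorm _).trans ?_)
      exact mul_le_of_le_one_left (norm_nonneg _) (hh i)
  refine ⟨fun i => (1 + a)⁻¹ • (ev b h i + (a / h i p) • p), h, ?_, ?_, ?_, hne, ?_, ?_⟩
  · intro i y
    refine (le_abs_self _).trans (((h i).le_opNorm _).trans ?_)
    exact mul_le_of_le_one_left (norm_nonneg _) (hh i)
  · intro i
    rw [norm_smul, Real.norm_of_nonneg (inv_nonneg.2 h1a.le), hnw, inv_mul_cancel₀ h1a.ne']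
  · intro i
    rw [map_smul, smul_eq_mul, hwi, inv_mul_cancel₀ h1a.ne']
  · intro k i hki
    rw [map_smul, smul_eq_mul, map_add, map_smul, smul_eq_mul, ev_dual b h hdet, if_neg hki, zero_add, ← haκ]
    field_simp
  · rw [Fintype.linearIndependent_iff]
    intro g hg i
    have := congrArg (fun f : X →L[ℝ] ℝ => f (ev b h i)) hg
    simp only [sum_apply, smul_apply, smul_eq_mul,
      ev_dual b h hdet, zero_apply, mul_ite, mul_one, mul_zero,
      Finset.sum_ite_eq', Finset.mem_univ, if_true] at this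
    exact this

end Pool.Agent.Q208.KS.GA
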