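import Pool.Agent.Q264.KS.Stm5

/-!
# Project KS (helper264), job KS5-HPA
-/

set_option autoImplicit false

namespace Pool.Agent.Q208.KS.HPA

open Module Pool.Agent.Q264.KS

universe u

section

variable {X : Type u} [NormedAddCommGroup X] [NormedSpace ℝ X] {B : X →ₗ[ℝ] X →ₗ[ℝ] ℝ}

theorem nsq (hs : ∀ x y, B x y = B y x) (hB : ∀ x, B x x = ‖x‖ ^ 2) (x y : X) (l : ℝ) :
    ‖x + l • y‖ ^ 2 = ‖x‖ ^ 2 + 2 * l * B x y + l ^ 2 * ‖y‖ ^ 2 := by
  rw [← hB, ← hB, ← hB]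
  simp only [map_add, map_smul, LinearMap.add_apply, LinearMap.smul_apply, smul_eq_mul]
  rw [hs y x]
  ring

theorem bj_iff (hs : ∀ x y, B x y = B y x) (hB : ∀ x, B x x = ‖x‖ ^ 2) (x y : X) :
    BJ x y ↔ B x y = 0 := by
  constructor
  · intro h
    by_contra hc
    have h1 := h (-(B x y) / (‖y‖ ^ 2 + 1))
    have hN : 0 < ‖y‖ ^ 2 + 1 := by positivity
    have h2 : ‖x‖ ^ 2 ≤ ‖x + (-(B x y) / (‖y‖ ^ 2 + 1)) • y‖ ^ 2 := pow_le_pow_left₀ (norm_nonneg _) h1 2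
    rw [nsq hs hB] at h2
    have h3 : 2 * (-(B x y) / (‖y‖ ^ 2 + 1)) * B x y + (-(B x y) / (‖y‖ ^ 2 + 1)) ^ 2 * ‖y‖ ^ 2 =
        -((B x y) ^ 2 * (‖y‖ ^ 2 + 2) / (‖y‖ ^ 2 + 1) ^ 2) := by
      field_simp
      ring
    have h4 : 0 < (B x y) ^ 2 * (‖y‖ ^ 2 + 2) / (‖y‖ ^ 2 + 1) ^ 2 := by
      have : 0 < (B x y) ^ 2 := by positivity
      positivity
    linarith
  · intro h l
    have h1 := nsq hs hB x y l
    rw [h] at h1
    have h2 : 0 ≤ l ^ 2 * ‖y‖ ^ 2 := by positivity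
    refine le_of_not_gt fun h3 => ?_
    have h4 : ‖x + l • y‖ ^ 2 < ‖x‖ ^ 2 := pow_lt_pow_left₀ h3 (norm_nonneg _) two_ne_zero
    linarith

end

theorem t_HPA : S_HPA.{u} := by
  intro X _ _ _ hn ⟨B, hs, hB⟩ A hA1 ⟨x, hx, hAx⟩ hconn
  have bj := bj_iff hs hB
  have hne : Nonempty (Fin (finrank ℝ X)) := ⟨⟨0, by omega⟩⟩
  let b : Basis (Fin (finrank ℝ X)) ℝ X := basisOfLinearIndependentOfCardEqFinrank hx (by simp)
  have hb : ∀ i, b i = x i := fun i => by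
    show (basisOfLinearIndependentOfCardEqFinrank hx _) i = _
    rw [coe_basisOfLinearIndependentOfCardEqFinrank]
  have hx1 : ∀ i, ‖x i‖ = 1 := fun i => hA1 _ (hAx ▸ Set.mem_range_self i)
  constructor
  · intro T hT
    have h1 : ∀ i y, B (T (x i)) (T y) = ‖T (x i)‖ ^ 2 * B (x i) y := by
      intro i y
      have e1 : B (x i) (y - B (x i) y • x i) = 0 := by
        rw [map_sub, map_smul, hB, hx1, smul_eq_mul]
        ring
      have e2 := (bj _ _).1 (hT (x i) (hAx ▸ Set.mem_range_self i) _ ((bj _ _).2 e1))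
      rw [map_sub, map_smul, map_sub, map_smul, hB, smul_eq_mul] at e2
      linarith
    have h2 : ∀ i j, ‖T (x i)‖ ^ 2 ≠ ‖T (x j)‖ ^ 2 → B (x i) (x j) = 0 := by
      intro i j hij
      have e1 := h1 i (x j)
      have e2 := h1 j (x i)
      rw [hs (T (x j)), hs (x j)] at e2
      have e3 : (‖T (x i)‖ ^ 2 - ‖T (x j)‖ ^ 2) * B (x i) (x j) = 0 := by
        rw [sub_mul, ← e1, ← e2, sub_self]
      exact (mul_eq_zero.1 e3).resolve_left (sub_ne_zero.2 hij)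
    obtain ⟨i0⟩ := hne
    have h3 : ∀ i, ‖T (x i)‖ ^ 2 = ‖T (x i0)‖ ^ 2 := by
      by_contra hc
      push Not at hc
      obtain ⟨j, hj⟩ := hc
      refine hconn {z | ∃ i, z = x i ∧ ‖T (x i)‖ ^ 2 = ‖T (x i0)‖ ^ 2}
        {z | ∃ i, z = x i ∧ ‖T (x i)‖ ^ 2 ≠ ‖T (x i0)‖ ^ 2} ?_ ⟨x i0, i0, rfl, rfl⟩ ⟨x j, j, rfl, hj⟩ ?_
      · rw [hAx]
        ext z
        constructor
        · rintro ⟨i, rfl⟩
          by_cases h : ‖T (x i)‖ ^ 2 = ‖T (x i0)‖ ^ 2
          · exact Or.inl ⟨i, rfl, h⟩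
          · exact Or.inr ⟨i, rfl, h⟩
        · rintro (⟨i, rfl, _⟩ | ⟨i, rfl, _⟩)
          · exact ⟨i, rfl⟩
          · exact ⟨i, rfl⟩
      · rintro _ ⟨i, rfl, hi⟩ _ ⟨k, rfl, hk⟩
        rw [bj]
        refine h2 i k fun h => hk ?_
        rw [← h, hi]
    have h4 : ∀ z y, B (T z) (T y) = ‖T (x i0)‖ ^ 2 * B z y := by
      intro z y
      have e : (B.flip (T y)) ∘ₗ T = (‖T (x i0)‖ ^ 2) • B.flip y := by
        refine b.ext fun i => ?_
        rw [hb]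
        show B (T (x i)) (T y) = ‖T (x i0)‖ ^ 2 * B (x i) y
        rw [h1, h3]
      exact congrArg (fun f : X →ₗ[ℝ] ℝ => f z) e
    have h5 : ∀ z, ‖T z‖ = ‖T (x i0)‖ * ‖z‖ := by
      intro z
      have e := h4 z z
      rw [hB, hB, ← mul_pow] at e
      exact (pow_left_inj₀ (norm_nonneg _) (by positivity) two_ne_zero).1 e
    by_cases hc : ‖T (x i0)‖ = 0
    · refine ⟨0, LinearMap.id, fun z => rfl, ?_⟩
      ext z
      have e := h5 z
      rw [hc, zero_mul, norm_eq_zero] at e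
      rw [e]
      simp
    · refine ⟨‖T (x i0)‖, ‖T (x i0)‖⁻¹ • T, fun z => ?_, ?_⟩
      · rw [LinearMap.smul_apply, norm_smul, h5 z, Real.norm_of_nonneg (inv_nonneg.2 (norm_nonneg _)),
          inv_mul_cancel_left₀ hc]
      · rw [smul_smul, mul_inv_cancel₀ hc, one_smul]
  · intro A' hA' hK
    obtain ⟨z, hz, hz'⟩ := Set.exists_of_ssubset hA'
    rw [hAx] at hz
    obtain ⟨j, rfl⟩ := hz
    obtain ⟨c, U, hU, hT⟩ := hK ((b.coord j).smulRight (x j)) (by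
      intro y hy w _ l
      have hy2 : y ∈ Set.range x := hAx ▸ hA'.1 hy
      obtain ⟨i, rfl⟩ := hy2
      have hij : i ≠ j := fun h => hz' (h ▸ hy)
      have e : (b.coord j) (x i) = 0 := by
        rw [← hb, Basis.coord_apply, Basis.repr_self, Finsupp.single_eq_of_ne hij.symm]
      rw [LinearMap.smulRight_apply, e, zero_smul, norm_zero]
      exact norm_nonneg _)
    have e1 : ‖x j‖ = |c| := by
      have e := congrArg (fun f : X →ₗ[ℝ] X => ‖f (x j)‖) hT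
      simp only [LinearMap.smulRight_apply, LinearMap.smul_apply] at e
      rw [norm_smul, norm_smul, hU, ← hb, Basis.coord_apply, Basis.repr_self, Finsupp.single_eq_same,
        hb, hx1, norm_one, mul_one, mul_one] at e
      rw [hx1]
      exact e
    obtain ⟨k, hk⟩ : ∃ k : Fin (finrank ℝ X), k ≠ j := by
      have : Nontrivial (Fin (finrank ℝ X)) := Fin.nontrivial_iff_two_le.2 hn
      exact exists_ne j
    have e2 := congrArg (fun f : X →ₗ[ℝ] X => ‖f (x k)‖) hT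
    simp only [LinearMap.smulRight_apply, LinearMap.smul_apply] at e2
    rw [norm_smul, norm_smul, hU, ← hb k, Basis.coord_apply, Basis.repr_self,
      Finsupp.single_eq_of_ne hk.symm, norm_zero, zero_mul, hb, hx1, mul_one, Real.norm_eq_abs, ← e1, hx1] at e2
    exact zero_ne_one e2

end Pool.Agent.Q208.KS.HPA
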